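import Pool.Agent.H88.RO.Final
import Pool.Agent.H65.TS.Base

set_option autoImplicit false

/-!
# Polynomial time reductions are reductions within superpolynomial time bounds
-/

namespace Pool.Agent.H93.EW

open Pool.Agent.H88.RO Pool.Agent.H88.RO.Tr

variable {O : List Bool → Bool}

/-- a polynomial time reduction runs in time given by a polynomial in the length of the
instance -/
theorem reducesWithin_poly {S T : TFNP O} (h : S.Reduces T) :
    ∃ r : Polynomial ℕ, S.ReducesWithin (fun n => r.eval n) T := by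
  obtain ⟨f, g, ⟨cf, qf, hf⟩, ⟨cg, qg, hg⟩, hred⟩ := h
  refine ⟨qf + qg.comp (Polynomial.X + T.p.comp (2 * qf)), cf, cg,
    fun x => ⟨f x, ?_, fun y hy => ⟨g x y, ?_, hred x y hy⟩⟩⟩
  · obtain ⟨t, ht, he⟩ := hf x
    refine ⟨t, ?_, he⟩
    simp only [Polynomial.eval_add]
    omega
  · obtain ⟨t, ht, he⟩ := hg x y
    refine ⟨t, ?_, he⟩
    obtain ⟨t', ht', he'⟩ := hf x
    have h1 := he'.size_le
    have h2 := len_le_size (enc (f x))
    rw [len_enc] at h2
    have h3 : T.p.eval (f x).length ≤ T.p.eval (2 * qf.eval x.length) := poly_mono _ (by omega)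
    have h4 : qg.eval (x.length + y.length) ≤
        qg.eval (x.length + T.p.eval (2 * qf.eval x.length)) :=
      poly_mono _ (by have := hy.1; omega)
    simp only [Polynomial.eval_add, Polynomial.eval_comp, Polynomial.eval_X, Polynomial.eval_mul,
      Polynomial.eval_ofNat]
    omega

/-- `τ` dominates all powers, up to constants -/
theorem poly_le_of_pow_le {τ : ℕ → ℕ} (hτ : ∀ k, ∃ C, ∀ n, n ^ k ≤ C * τ n)
    (r : Polynomial ℕ) : ∃ C, ∀ n, r.eval n ≤ C * τ n := by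
  induction r using Polynomial.induction_on' with
  | add p q hp hq =>
    obtain ⟨C, hC⟩ := hp
    obtain ⟨D, hD⟩ := hq
    refine ⟨C + D, fun n => ?_⟩
    rw [Polynomial.eval_add, add_mul]
    exact Nat.add_le_add (hC n) (hD n)
  | monomial k a =>
    obtain ⟨C, hC⟩ := hτ k
    refine ⟨a * C, fun n => ?_⟩
    rw [Polynomial.eval_monomial, mul_assoc]
    exact Nat.mul_le_mul_left _ (hC n)

/-- no reduction within `C * τ` for a superpolynomial `τ` and all `C` implies no polynomial time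
reduction -/
theorem not_reduces_of {S T : TFNP O} {τ : ℕ → ℕ} (hτ : ∀ k, ∃ C, ∀ n, n ^ k ≤ C * τ n)
    (h : ∀ C : ℕ, ¬ S.ReducesWithin (fun n => C * τ n) T) : ¬ S.Reduces T := by
  intro hred
  obtain ⟨r, hr⟩ := reducesWithin_poly hred
  obtain ⟨C, hC⟩ := poly_le_of_pow_le hτ r
  exact h C (ReducesWithin_mono hC hr)

/-! ### the time bounds `2 ^ (n ^ e)` -/

theorem pow_le_exp (k : ℕ) : ∃ C, ∀ n, n ^ k ≤ C * 2 ^ n := by
  obtain ⟨C, hC⟩ := exists_exp_bound (Polynomial.X ^ k)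
  exact ⟨C, fun n => by simpa using hC n⟩

theorem pow_le_exp' (e : ℕ) (he : 1 ≤ e) (k : ℕ) : ∃ C, ∀ n, n ^ k ≤ C * 2 ^ (n ^ e) := by
  obtain ⟨C, hC⟩ := pow_le_exp k
  exact ⟨C, fun n => (hC n).trans (Nat.mul_le_mul_left _
    (Nat.pow_le_pow_right (by omega) (Nat.le_self_pow (by omega) n)))⟩

/-- one problem `S` for all constants and the exponent `κ` -/
theorem caseA {S T : TFNP O} (κ : ℕ)
    (h : ∀ C : ℕ, ¬ S.ReducesWithin (fun n => C * 2 ^ (n ^ (κ + 1))) T) :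
    ¬ S.Reduces T ∧ ∀ C : ℕ, ¬ S.ReducesWithin (fun n => C * 2 ^ n ^ κ) T := by
  refine ⟨not_reduces_of (pow_le_exp' (κ + 1) (by omega)) h, fun C hred => ?_⟩
  have hle : ∀ n, C * 2 ^ (n ^ κ) ≤ (2 * C) * 2 ^ (n ^ (κ + 1)) := by
    intro n
    rcases Nat.eq_zero_or_pos n with rfl | hn
    · have : 2 ^ (0 ^ κ) ≤ 2 := by
        rcases Nat.eq_zero_or_pos κ with rfl | hκ
        · simp
        · rw [Nat.zero_pow hκ]; norm_num
      have e1 : (0 : ℕ) ^ (κ + 1) = 0 := Nat.zero_pow (Nat.succ_pos κ)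
      rw [e1, pow_zero, mul_one, mul_comm 2 C]
      exact Nat.mul_le_mul_left _ this
    · have h1 : n ^ κ ≤ n ^ (κ + 1) := Nat.pow_le_pow_right hn (by omega)
      have h2 : 2 ^ (n ^ κ) ≤ 2 ^ (n ^ (κ + 1)) := Nat.pow_le_pow_right (by omega) h1
      exact Nat.mul_le_mul (by omega) h2
  exact h (2 * C) (ReducesWithin_mono hle hred)

/-! ### the time bound `n ^ (log log log n)` -/

/-- about `n ^ (log log log n)` -/
def tauB (n : ℕ) : ℕ := 2 ^ (Nat.size n * Nat.size (Nat.size (Nat.size n)))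

theorem tauB_pos (n : ℕ) : 1 ≤ tauB n := Nat.one_le_two_pow

theorem pow_le_tauB (k : ℕ) : ∃ C, ∀ n, n ^ k ≤ C * tauB n := by
  refine ⟨(2 ^ (2 ^ (2 ^ k))) ^ k + 1, fun n => ?_⟩
  rcases Nat.lt_or_ge n (2 ^ (2 ^ (2 ^ k))) with h | h
  · calc n ^ k ≤ (2 ^ (2 ^ (2 ^ k))) ^ k := Nat.pow_le_pow_left h.le k
      _ ≤ ((2 ^ (2 ^ (2 ^ k))) ^ k + 1) * 1 := by omega
      _ ≤ _ := Nat.mul_le_mul_left _ (tauB_pos n)
  · have h1 : 2 ^ (2 ^ k) < Nat.size n := Nat.lt_size.mpr h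
    have h2 : 2 ^ k < Nat.size (Nat.size n) := Nat.lt_size.mpr h1.le
    have h3 : k < Nat.size (Nat.size (Nat.size n)) := Nat.lt_size.mpr h2.le
    have h4 : n ≤ 2 ^ Nat.size n := (Nat.lt_size_self n).le
    calc n ^ k ≤ (2 ^ Nat.size n) ^ k := Nat.pow_le_pow_left h4 k
      _ = 2 ^ (Nat.size n * k) := by rw [pow_mul]
      _ ≤ tauB n := Nat.pow_le_pow_right (by omega) (Nat.mul_le_mul_left _ h3.le)
      _ = 1 * tauB n := (one_mul _).symm
      _ ≤ _ := Nat.mul_le_mul_right _ (by omega)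

theorem caseB {S T : TFNP O} (h : ∀ C : ℕ, ¬ S.ReducesWithin (fun n => C * tauB n) T) :
    ¬ S.Reduces T := not_reduces_of pow_le_tauB h

end Pool.Agent.H93.EW
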