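import Pool.Agent.H65.EW.NumA

set_option autoImplicit false

/-!
# The numbers for passwords of length `n` and time bounds `C * 2 ^ (n ^ (e + 1))`
-/

namespace Pool.Agent.H93.EW

open Pool.Agent.H65.EW (poly_le_pow)

theorem hypA (e C : ℕ) (q : Polynomial ℕ) : ∃ b0, ∀ b, b0 ≤ b →
    q.eval (C * 2 ^ (b ^ (e + 1))) <
      2 ^ (Polynomial.X ^ (e + 2) + 1 : Polynomial ℕ).eval b ∧
    ∀ n, (Polynomial.X ^ (e + 2) + 1 : Polynomial ℕ).eval b ≤ n →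
      q.eval (C * 2 ^ (b ^ (e + 1))) < 2 ^ n := by
  obtain ⟨A, d, h⟩ := poly_le_pow q
  refine ⟨A * (C + 1) ^ d + d + 1, fun b hb => ?_⟩
  have hb1 : 1 ≤ b ^ (e + 1) := Nat.one_le_pow _ _ (by omega)
  have h1 : C * 2 ^ (b ^ (e + 1)) + 1 ≤ (C + 1) * 2 ^ (b ^ (e + 1)) := by
    have h2 : 1 ≤ 2 ^ (b ^ (e + 1)) := Nat.one_le_two_pow
    rw [add_mul, one_mul]
    omega
  have key : q.eval (C * 2 ^ (b ^ (e + 1))) < 2 ^ (b ^ (e + 2) + 1) := by
    calc q.eval (C * 2 ^ (b ^ (e + 1))) ≤ A * (C * 2 ^ (b ^ (e + 1)) + 1) ^ d := h _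
      _ ≤ A * ((C + 1) * 2 ^ (b ^ (e + 1))) ^ d :=
          Nat.mul_le_mul_left _ (Nat.pow_le_pow_left h1 _)
      _ = A * (C + 1) ^ d * 2 ^ (b ^ (e + 1) * d) := by rw [mul_pow, ← pow_mul, mul_assoc]
      _ < 2 ^ (A * (C + 1) ^ d) * 2 ^ (b ^ (e + 1) * d) :=
          Nat.mul_lt_mul_of_pos_right Nat.lt_two_pow_self (by positivity)
      _ = 2 ^ (A * (C + 1) ^ d + b ^ (e + 1) * d) := by rw [← pow_add]
      _ ≤ 2 ^ (b ^ (e + 2) + 1) := by
        refine Nat.pow_le_pow_right (by norm_num) ?_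
        have h3 : A * (C + 1) ^ d ≤ b ^ (e + 1) * (A * (C + 1) ^ d) :=
          Nat.le_mul_of_pos_left _ hb1
        have h4 : b ^ (e + 1) * (A * (C + 1) ^ d + d) ≤ b ^ (e + 1) * b :=
          Nat.mul_le_mul_left _ (by omega)
        rw [mul_add] at h4
        have h5 : b ^ (e + 2) = b ^ (e + 1) * b := pow_succ b (e + 1)
        omega
  have e1 : (Polynomial.X ^ (e + 2) + 1 : Polynomial ℕ).eval b = b ^ (e + 2) + 1 := by simp
  rw [e1]
  exact ⟨key, fun n hn => lt_of_lt_of_le key (Nat.pow_le_pow_right (by norm_num) hn)⟩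

end Pool.Agent.H93.EW
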