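import Pool.Agent.H93.EW.Red
import Pool.Agent.H65.EW.NumA

set_option autoImplicit false

/-!
# The numbers for passwords of superlogarithmic length
-/

namespace Pool.Agent.H93.EW

open Pool.Agent.H65.EW (poly_le_pow)

/-- powers are eventually less than `2 ^ n` -/
theorem pow_lt_exp (k : ℕ) : ∃ n₀, ∀ n, n₀ ≤ n → n ^ k < 2 ^ n := by
  obtain ⟨C, hC⟩ := pow_le_exp (k + 1)
  refine ⟨C + 1, fun n hn => ?_⟩
  have h1 := hC n
  have h2 : 0 < 2 ^ n := Nat.two_pow_pos n
  by_contra h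
  push Not at h
  have h3 : 2 ^ n * n ≤ n ^ k * n := Nat.mul_le_mul_right _ h
  rw [← pow_succ] at h3
  have h4 : 2 ^ n * n ≤ C * 2 ^ n := h3.trans h1
  rw [mul_comm] at h4
  have h5 := Nat.le_of_mul_le_mul_right h4 h2
  omega

/-- a polynomial of a polynomial bound is at most a power -/
theorem poly_tau_le (C : ℕ) (q : Polynomial ℕ) :
    ∃ k b₀, ∀ b, b₀ ≤ b → q.eval (C * b ^ C + C) ≤ b ^ k := by
  obtain ⟨A, d, h⟩ := poly_le_pow q
  refine ⟨(C + 1) * d + 1, A + 2 * C + 1, fun b hb => ?_⟩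
  have hb0 : 0 < b := by omega
  have h1 : 1 ≤ b ^ C := Nat.one_le_pow _ _ hb0
  have h2 : C * b ^ C + C + 1 ≤ b ^ (C + 1) := by
    calc C * b ^ C + C + 1 ≤ C * b ^ C + (C + 1) * b ^ C := by
          have := Nat.mul_le_mul_left (C + 1) h1
          omega
      _ = (2 * C + 1) * b ^ C := by ring
      _ ≤ b * b ^ C := Nat.mul_le_mul_right _ (by omega)
      _ = b ^ (C + 1) := by ring
  calc q.eval (C * b ^ C + C) ≤ A * (C * b ^ C + C + 1) ^ d := h _
    _ ≤ b * (b ^ (C + 1)) ^ d := Nat.mul_le_mul (by omega) (Nat.pow_le_pow_left h2 _)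
    _ = b ^ ((C + 1) * d + 1) := by rw [← pow_mul, pow_succ, mul_comm]

/-- the hypothesis of the construction for passwords of superlogarithmic length -/
theorem hypL {l : ℕ → ℕ} (hs : ∀ k, ∃ n₀, ∀ n, n₀ ≤ n → n ^ k < 2 ^ l n) (C : ℕ)
    (q : Polynomial ℕ) : ∃ b0, ∀ b, b0 ≤ b →
      q.eval (C * b ^ C + C) < 2 ^ (Polynomial.X : Polynomial ℕ).eval b ∧
        ∀ n, (Polynomial.X : Polynomial ℕ).eval b ≤ n → q.eval (C * b ^ C + C) < 2 ^ l n := by
  obtain ⟨k, b₁, h1⟩ := poly_tau_le C q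
  obtain ⟨n₁, h2⟩ := pow_lt_exp k
  obtain ⟨n₂, h3⟩ := hs k
  refine ⟨b₁ + n₁ + n₂, fun b hb => ?_⟩
  simp only [Polynomial.eval_X]
  have h4 := h1 b (by omega)
  refine ⟨lt_of_le_of_lt h4 (h2 b (by omega)), fun n hn => ?_⟩
  exact lt_of_le_of_lt (h4.trans (Nat.pow_le_pow_left hn _)) (h3 n (by omega))

/-- polynomials are at most `C * n ^ C + C` -/
theorem poly_le_tau (r : Polynomial ℕ) : ∃ C, ∀ n, r.eval n ≤ C * n ^ C + C := by
  induction r using Polynomial.induction_on' with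
  | add p q hp hq =>
    obtain ⟨C, hC⟩ := hp
    obtain ⟨D, hD⟩ := hq
    refine ⟨C + D, fun n => ?_⟩
    rw [Polynomial.eval_add]
    have h1 := hC n
    have h2 := hD n
    have key : ∀ a b : ℕ, a * n ^ a ≤ a * n ^ (a + b) := by
      intro a b
      rcases Nat.eq_zero_or_pos n with rfl | hn
      · rcases Nat.eq_zero_or_pos a with rfl | ha
        · simp
        · rw [Nat.zero_pow ha]; simp
      · exact Nat.mul_le_mul_left _ (Nat.pow_le_pow_right hn (by omega))
    have h3 := key C D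
    have h4 := key D C
    rw [add_comm D C] at h4
    have h5 : (C + D) * n ^ (C + D) = C * n ^ (C + D) + D * n ^ (C + D) := by ring
    omega
  | monomial k a =>
    refine ⟨a + k, fun n => ?_⟩
    rw [Polynomial.eval_monomial]
    rcases Nat.eq_zero_or_pos n with rfl | hn
    · have : a * 0 ^ k ≤ a * 1 := Nat.mul_le_mul_left _ (by
        rcases Nat.eq_zero_or_pos k with rfl | hk
        · simp
        · rw [Nat.zero_pow hk]; omega)
      omega
    · have h1 : a * n ^ k ≤ (a + k) * n ^ (a + k) :=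
        Nat.mul_le_mul (by omega) (Nat.pow_le_pow_right hn (by omega))
      omega

end Pool.Agent.H93.EW
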