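import Pool.Agent.H65.EW.Gen
import Pool.Agent.H43.EW.Cls

set_option autoImplicit false

/-!
# Legal oracles: PSPACE is decided with a short advice, and is the second level of the Boolean
hierarchy over NP
-/

namespace Pool.Agent.H93.EW

open Pool.Agent.H88.RO Pool.Agent.H88.RO.Tr Pool.Agent.H65.TS Pool.Agent.H65.NU
open Pool.Agent.H65.EW Pool.Agent.H43.EW

/-- polynomial time functions on strings as functions on trees -/
theorem FP_fn {O : List Bool → Bool} {f : List Bool → List Bool} (hf : PolyTimeFun O f)
    {F : Tr → Tr} (hF : FP O F) : FP O (fun v => enc (f (dec (F v)))) := by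
  have key : FP O (fun v => enc (f (dec v))) := by
    obtain ⟨c, q, hc⟩ := hf
    obtain ⟨c', q', hc'⟩ := FP.norm' (O := O) FP.id'
    refine ⟨Prog.comp c c', q' + q + Polynomial.X + 1, fun v => ?_⟩
    obtain ⟨t1, ht1, he1⟩ := hc' v
    simp only [norm_eq] at he1
    obtain ⟨t2, ht2, he2⟩ := hc (dec v)
    refine ⟨_, ?_, Eval.comp he1 he2⟩
    simp only [Polynomial.eval_add, Polynomial.eval_X, Polynomial.eval_one]
    have h1 : (dec v).length ≤ size v := by
      rw [length_dec]
      have := len_le_size v
      omega
    have h2 := poly_mono q h1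
    omega
  exact FP.comp' (F := fun v => enc (f (dec v))) key hF

/-- The function `l` is computable in polynomial time in unary, relative to all oracles. -/
def Unary (l : ℕ → ℕ) : Prop :=
  ∀ O : List Bool → Bool, PolyTimeFun O (fun x => List.replicate (l x.length) false)

theorem unary_lT {l : ℕ → ℕ} (hl : Unary l) (O : List Bool → Bool) {F : Tr → Tr}
    (hF : FP O F) : FP O (fun v => num (l (len (F v)))) := by
  have h := FP_fn (hl O) hF
  simpa only [enc_replicate, length_dec] using h

/-- a function computable in unary in polynomial time has a polynomial bound -/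
theorem unary_le {l : ℕ → ℕ} (hl : Unary l) : ∃ r : Polynomial ℕ, ∀ n, l n ≤ r.eval n := by
  obtain ⟨c, q, hc⟩ := hl (fun _ => false)
  refine ⟨2 * q, fun n => ?_⟩
  obtain ⟨t, ht, he⟩ := hc (List.replicate n false)
  have h1 := he.size_le
  have h2 := len_le_size (enc (List.replicate (l (List.replicate n false).length) false))
  simp only [List.length_replicate] at ht h1 h2
  rw [len_enc, List.length_replicate] at h2
  simp only [Polynomial.eval_mul, Polynomial.eval_ofNat]
  omega

theorem cod {l : ℕ → ℕ} (hl : Unary l) : Cod pw cd l where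
  pwc := by
    refine ⟨fun a b => node leaf (node leaf (onesPre a (node leaf b))), ?_, ?_⟩
    · intro w q
      have e1 : ∀ v : List Bool, node leaf (enc v) = enc (false :: v) := fun v => rfl
      rw [e1, onesPre_enc, len_enc, e1, e1, pw]
    · intro O G H hG hH
      exact FP.node' FP.leaf' (FP.node' FP.leaf' (FP.onesPre' hG (FP.node' FP.leaf' hH)))
  cdc := by
    refine ⟨fun a b => node leaf (node tt (prT a b)), ?_, ?_⟩
    · intro w q
      rw [prT_enc]
      rfl
    · intro O G H hG hH
      exact FP.node' FP.leaf' (FP.node' (FP.const' _) (FP.prT' hG hH))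
  le := unary_le hl
  lc := ⟨fun v => num (l (len v)), fun _ => rfl, fun O _ hF => unary_lT hl O hF⟩

variable {O : List Bool → Bool} {l : ℕ → ℕ} {tr : (List Bool → Bool) → List Bool → Prop}

/-- the table of a legal oracle -/
theorem table (hO : Legal l tr O) (q : List Bool) : tr O q ↔
    (∃ w : List Bool, w.length = l q.length ∧ O (pw q.length w) = true ∧ O (cd w q) = true) ∨
    ((∀ w : List Bool, w.length = l q.length → O (pw q.length w) = false) ∧
      O (cd (List.replicate (l q.length) false) q) = true) := by
  constructor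
  · intro h
    by_cases hw : ∃ w : List Bool, w.length = l q.length ∧ O (pw q.length w) = true
    · obtain ⟨w, h1, h2⟩ := hw
      exact Or.inl ⟨w, h1, h2, (hO q w ⟨h1, Or.inl h2⟩).mpr h⟩
    · have hno : ∀ w : List Bool, w.length = l q.length → O (pw q.length w) = false := by
        intro w h1
        by_contra h2
        exact hw ⟨w, h1, by simpa using h2⟩
      exact Or.inr ⟨hno, (hO q _ ⟨by simp, Or.inr ⟨rfl, hno⟩⟩).mpr h⟩
  · rintro (⟨w, h1, h2, h3⟩ | ⟨h1, h2⟩)
    · exact (hO q w ⟨h1, Or.inl h2⟩).mp h3
    · exact (hO q _ ⟨by simp, Or.inr ⟨rfl, h1⟩⟩).mp h2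

/-- **PSPACE relative to a legal oracle.** -/
theorem classes (hl : Unary l) (hO : Legal l Tru O) {L : Set (List Bool)}
    (hL : InPSPACE O L) :
    InPAdv O l L ∧ ∃ A B : Set (List Bool), InNP O A ∧ InNP O Bᶜ ∧ L = A ∪ B := by
  obtain ⟨i, k, n, hi⟩ := exists_tru hL
  have hC := cod hl
  refine ⟨?_, union_of_table hC (table hO) hi⟩
  obtain ⟨cdT, hcd⟩ := hC.cdc
  have hp : ∀ n, Pass l O n (exists_pass (l := l) O n).choose := fun n =>
    (exists_pass (l := l) O n).choose_spec
  exact inPAdv_of_table hcd (wm := fun n => (exists_pass (l := l) O n).choose)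
    (fun n => (hp n).1) (fun q => hO q _ (hp q.length)) hi

theorem loc_Tru : Loc Tru := fun _ _ _ h => Tru_congr h

end Pool.Agent.H93.EW
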