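import Pool.Agent.H65.EW.World
import Pool.Agent.H93.EW.Tab
import Pool.Agent.H93.EW.NumL
import Pool.Agent.H93.EW.NumA2

set_option autoImplicit false

/-!
# Easy worlds without complete total search problems
-/

namespace Pool.Agent.H93.EW

open Pool.Agent.H88.RO Pool.Agent.H88.RO.Tr Pool.Agent.H65.TS Pool.Agent.H65.NU
open Pool.Agent.H65.EW Pool.Agent.H43.EW

/-- Passwords of superlogarithmic length. -/
theorem world_short {l : ℕ → ℕ} (hl : Unary l)
    (hs : ∀ k, ∃ n₀, ∀ n, n₀ ≤ n → n ^ k < 2 ^ l n) :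
    ∃ O : List Bool → Bool,
      (∀ L : Set (List Bool), InPSPACE O L →
        InPAdv O l L ∧ ∃ A B : Set (List Bool), InNP O A ∧ InNP O Bᶜ ∧ L = A ∪ B) ∧
      ∀ T : TFNP O, ∃ S : TFNP O,
        (∀ x x' y, x.length = x'.length → (S.IsSol x y ↔ S.IsSol x' y)) ∧ ¬ S.Reduces T := by
  obtain ⟨O, hO, hT⟩ := exists_world (l := l) loc_Tru (fun _ C b => C * b ^ C + C)
    (fun _ => Polynomial.X) (fun _ C q => hypL hs C q)
  refine ⟨O, fun L hL => classes hl hO hL, fun T => ?_⟩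
  obtain ⟨S, h1, h2⟩ := hT T 0
  refine ⟨S, h1, fun hred => ?_⟩
  obtain ⟨r, hr⟩ := reducesWithin_poly hred
  obtain ⟨C, hC⟩ := poly_le_tau r
  exact h2 C (ReducesWithin_mono hC hr)

theorem unary_id : Unary (fun n => n) := by
  intro O
  refine polyTimeFun_of_FP (F := fun v => num (len v)) ?_ (fun x => ?_)
  · have h := FP.ulen' (O := O) FP.id'
    simpa only [ulen_eq] using h
  · rw [len_enc, enc_replicate]

/-- Passwords of length `n`. -/
theorem world_long :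
    ∃ O : List Bool → Bool,
      (∀ L : Set (List Bool), InPSPACE O L →
        InPPoly O L ∧ ∃ A B : Set (List Bool), InNP O A ∧ InNP O Bᶜ ∧ L = A ∪ B) ∧
      ∀ (T : TFNP O) (κ : ℕ), ∃ S : TFNP O,
        (∀ x x' y, x.length = x'.length → (S.IsSol x y ↔ S.IsSol x' y)) ∧
        ¬ S.Reduces T ∧ ∀ C : ℕ, ¬ S.ReducesWithin (fun n => C * 2 ^ n ^ κ) T := by
  obtain ⟨O, hO, hT⟩ := exists_world (l := fun n => n) loc_Tru
    (fun e C b => C * 2 ^ (b ^ (e + 1))) (fun e => Polynomial.X ^ (e + 2) + 1) hypA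
  refine ⟨O, fun L hL => ?_, fun T κ => ?_⟩
  · obtain ⟨h1, h2⟩ := classes unary_id hO hL
    exact ⟨h1.inPPoly ⟨Polynomial.X, fun n => by simp⟩, h2⟩
  · obtain ⟨S, h1, h2⟩ := hT T κ
    exact ⟨S, h1, caseA κ h2⟩

end Pool.Agent.H93.EW
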